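import Pool.Agent.N762.FP.Root2
import Pool.Agent.H920R2.Sr1

/-!
MP_53121e_ag: local uniformization, in all dimensions, of all valuations of the function fields over
a perfect field `k` of characteristic `p` which are constructed from function fields of surfaces by
products, by families of varieties of bounded degree, by adjoining zeros of polynomials of degree
less than `p` with controlled discriminants, and by radicals. The bounds for `p` do not depend on the
transcendence degree.

The theorem is about the fields `K` in the pairs `(K, P)` of a field `K` and a set `P` of elements of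
`K` which are obtained from the pairs `(E, E)`, where `E` is the function field of a surface, by
finitely many of the operations of `IsAdmissible`, in any order. The class and the models are those
of MP_b525bf_ag.AdmissibleTowers (helper762, with helper98), which is about resolutions of given
projective varieties.

helper98, helper762; built on the library of the starting files.
-/

set_option autoImplicit false

open Polynomial Pool.Agent.W558 Pool.Agent.N98

namespace Pool.Agent.Results.MP_53121e_ag.AdmissibleTowers

/-- The coordinate ring `k[H l / H j : l]` of the chart `j` of the projective model of `K` with the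
homogeneous coordinates `H`. -/
def modelChart (k : Type) {K : Type} [Field k] [Field K] [Algebra k K] {N : ℕ} (H : Fin N → K)
    (j : Fin N) : Subalgebra k K :=
  Algebra.adjoin k (Set.range fun l => H l / H j)

/-- The function field `K` of `k` has a projective model (with homogeneous coordinates `H`) on
which the centre of the valuation ring `V` is a regular point. The chart `j` contains the centre of
`V`, and `P` is the ideal of the centre. -/
def IsUniformizable (k : Type) {K : Type} [Field k] [Field K] [Algebra k K]
    (V : ValuationSubring K) : Prop :=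
  ∃ (N : ℕ) (H : Fin N → K) (j : Fin N), H j ≠ 0 ∧ (∀ l, H l / H j ∈ V) ∧
    (∀ z : K, ∃ a ∈ modelChart k H j, ∃ b ∈ modelChart k H j, b ≠ 0 ∧ z = a / b) ∧
    ∃ P : Ideal (modelChart k H j), ∃ (_ : P.IsPrime),
      (∀ b : modelChart k H j, b ∈ P ↔ V.valuation (b : K) < 1) ∧
        IsRegularLocalRing (Localization.AtPrime P)

/-- The values at the point `x` of the polynomials over `F` of total degree at most `t`. -/
noncomputable def values (F : Type) {K : Type} [Field F] [Field K] [Algebra F K] {N : ℕ}
    (x : Fin N → K) (t : ℕ) : Submodule F K :=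
  (MvPolynomial.restrictTotalDegree (Fin N) F t).map
    (MvPolynomial.aeval x : MvPolynomial (Fin N) F →ₐ[F] K).toLinearMap

/-- The variety in the affine space over `F` with the generic point `x` (the zeros of the
polynomials over `F` which vanish at `x`), whose function field is `F (x)`, has dimension `r` and
degree at most `δ`: its Hilbert function, the dimension over `F` of the space of the polynomial
functions of degree at most `t` on the variety, is at most `δ * t ^ r / r! + O (t ^ (r - 1))`. -/
def DegreeAtMost (F : Type) {K : Type} [Field F] [Field K] [Algebra F K] {N : ℕ}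
    (x : Fin N → K) (r δ : ℕ) : Prop :=
  Algebra.trdeg F (IntermediateField.adjoin F (Set.range x)) = r ∧
    ∃ C : ℕ, ∀ t : ℕ, r.factorial * Module.finrank F (values F x t) ≤ δ * (t + C) ^ r

/-- The smallest class of pairs `(K, P)`, where `K` is an extension of the field `k` and `P` is a
set of elements of `K`, with the following properties. -/
inductive IsAdmissible (p : ℕ) (k : Type) [Field k] :
    (K : Type) → [Field K] → [Algebra k K] → Set K → Prop
  /-- If `E` is the function field of a smooth projective surface, then `(E, E)` is in the class.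
  -/
  | surface (E : Type) [Field E] [Algebra k E] (h2 : Algebra.trdeg k E = 2)
      (hE : HasModel k E) : IsAdmissible p k E Set.univ
  /-- If each finite family of nonzero elements of `P` has its zeros and poles in a simple normal
  crossings divisor on some smooth projective variety with function field `E`, then `(E, P)` is in
  the class. (Examples: `E = k`; function fields of curves, with `P = E`.) -/
  | models (E : Type) [Field E] [Algebra k E] (P : Set E)
      (hE : ∀ (m : ℕ) (g : Fin m → E), (∀ b, g b ∈ P) → (∀ b, g b ≠ 0) →
        ∃ (N L : ℕ) (H : Fin (N + 1) → E) (x : Fin (N + 1) → Fin L → E)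
          (Γ : Fin m → Fin L → ℤ), IsLogModel (k := k) g H x Γ) :
      IsAdmissible p k E P
  /-- **Products.** If `(K₁, P₁)` and `(K₂, P₂)` are in the class, and `K` is the field of fractions
  of the image of `K₁ ⊗ K₂`, where the homomorphism from `K₁ ⊗ K₂` to `K` is injective (if `k` is
  algebraically closed, `K` is the function field of the product of varieties with the function
  fields `K₁` and `K₂`), then `(K, P₁ ∪ P₂)` is in the class. -/
  | product (K₁ K₂ K : Type) [Field K₁] [Field K₂] [Field K] [Algebra k K₁] [Algebra k K₂]
      [Algebra k K] (P₁ : Set K₁) (P₂ : Set K₂) (h₁ : IsAdmissible p k K₁ P₁)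
      (h₂ : IsAdmissible p k K₂ P₂) (ι₁ : K₁ →ₐ[k] K) (ι₂ : K₂ →ₐ[k] K)
      (hι : Function.Injective (Algebra.TensorProduct.productMap ι₁ ι₂))
      (hK : IntermediateField.adjoin k (Set.range ι₁ ∪ Set.range ι₂) = ⊤) :
      IsAdmissible p k K (ι₁ '' P₁ ∪ ι₂ '' P₂)
  /-- **Families of bounded degree.** Let `(L, P)` be in the class, and let `E` be a field contained
  in `P`. Let `F` be a field of `p ^ e`-th powers of elements of `E` over which `E` is algebraic,
  for example `E ^ (p ^ e)` (or `E` if `e = 0`). Let `K` be generated over `L` by
  `y 1, ..., y N` and have transcendence degree `r` over `L`, and let the exponents `m i` be not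
  divisible by `p ^ (e + 1)` and such that `(y 1 ^ m 1, ..., y N ^ m N)` is the generic point of a
  variety over `F` of dimension `r` and degree at most `δ`. (So `K` is the function field of a
  component of the product over `E` of a variety with the function field `L` and of a variety over
  `E` which is a component of the inverse image of a variety of dimension `r` and degree at most `δ`
  over `F`.) Suppose that `(s * δ) ^ 2 ^ r < p` and `F` is infinite, or that
  `(max s δ) ^ 2 ^ (N - 1) < p`. Then the `y i` and the polynomials over `F` of degree at most `s`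
  in the `y i ^ m i` can be added to `P`. -/
  | family (L K F E : Type) [Field L] [Field K] [Field F] [Field E] [Algebra k L] [Algebra k K]
      [Algebra L K] [IsScalarTower k L K] [Algebra E L] [Algebra E K] [IsScalarTower E L K]
      [Algebra F E] [Algebra F K] [IsScalarTower F E K] [Algebra.IsAlgebraic F E]
      (P : Set L) (h : IsAdmissible p k L P) (hE : ∀ a : E, algebraMap E L a ∈ P)
      (e : ℕ) (hF : ∀ a : F, ∃ b : E, b ^ p ^ e = algebraMap F E a)
      (N r δ s : ℕ) (y : Fin N → K) (hy : IntermediateField.adjoin L (Set.range y) = ⊤)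
      (hr : Algebra.trdeg L K = r) (m : Fin N → ℕ) (hm : ∀ i, ¬ p ^ (e + 1) ∣ m i)
      (hδ : DegreeAtMost F (fun i => y i ^ m i) r δ) (hs : 1 ≤ s)
      (hp : (Infinite F ∧ (s * δ) ^ 2 ^ r < p) ∨ max s δ ^ 2 ^ (N - 1) < p) :
      IsAdmissible p k K (algebraMap L K '' P ∪ (Set.range y ∪
        {z | ∃ G : MvPolynomial (Fin N) F,
          G.totalDegree ≤ s ∧ z = MvPolynomial.aeval (fun i => y i ^ m i) G}))
  /-- **Adjoining one element.** Let `(L, P)` be in the class, and let `Φ` be a set of nonzero
  polynomials over `L` of degree at most `Δ < p`, which contains `X`, is closed under derivatives,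
  whose constant members are in `P`, and such that for `f`, `g` in `Φ`, where `f` is not constant,
  there is a nonzero polynomial `Q` of degree at most `Δ` (for example the characteristic
  polynomial of `g` modulo `f`) whose nonzero coefficients are in `P`, such that `f` divides
  `Q (g)`. Let `K = L (z)`, where `z` is transcendental over `L` or a zero of a member of `Φ`. Then
  the values at `z` of the members of `Φ` can be added to `P`. -/
  | element (L K : Type) [Field L] [Field K] [Algebra k L] [Algebra k K] [Algebra L K]
      [IsScalarTower k L K] (P : Set L) (h : IsAdmissible p k L P) (Δ : ℕ) (hΔ : Δ < p)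
      (Φ : Set L[X]) (h0 : ∀ f ∈ Φ, f ≠ 0) (hdeg : ∀ f ∈ Φ, f.natDegree ≤ Δ) (hX : X ∈ Φ)
      (hder : ∀ f ∈ Φ, 1 ≤ f.natDegree → derivative f ∈ Φ)
      (hconst : ∀ f ∈ Φ, f.natDegree = 0 → f.coeff 0 ∈ P)
      (hQ : ∀ f ∈ Φ, ∀ g ∈ Φ, 1 ≤ f.natDegree → ∃ Q : L[X], Q ≠ 0 ∧ Q.natDegree ≤ Δ ∧
        f ∣ Q.comp g ∧ ∀ n, Q.coeff n ≠ 0 → Q.coeff n ∈ P)
      (z : K) (hz : IntermediateField.adjoin L {z} = ⊤)
      (hz' : Transcendental L z ∨ ∃ f ∈ Φ, aeval z f = 0) :
      IsAdmissible p k K (algebraMap L K '' P ∪ {y | ∃ f ∈ Φ, y = aeval z f})
  /-- **Radicals.** Let `(L, P)` be in the class, and let `K` be generated over `L` by elements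
  `w j ≠ 0` such that `(w j) ^ (n j)` is in `P`, for an exponent `n j` prime to `p`. Then the `w j`
  can be added to `P`. -/
  | radical (L K : Type) [Field L] [Field K] [Algebra k L] [Algebra k K] [Algebra L K]
      [IsScalarTower k L K] (P : Set L) (h : IsAdmissible p k L P) (g : ℕ) (w : Fin g → K)
      (n : Fin g → ℕ) (hw0 : ∀ j, w j ≠ 0) (hn : ∀ j, ¬ p ∣ n j)
      (hw : ∀ j, ∃ z ∈ P, w j ^ n j = algebraMap L K z)
      (hK : IntermediateField.adjoin L (Set.range w) = ⊤) :
      IsAdmissible p k K (algebraMap L K '' P ∪ Set.range w)
  /-- **Products and roots.** If `(K, P)` is in the class, and each nonzero element of `Q` has a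
  power which is a product of a constant and of (positive or negative) powers of elements of `P`,
  then `(K, Q)` is in the class. -/
  | saturation (K : Type) [Field K] [Algebra k K] (P Q : Set K) (h : IsAdmissible p k K P)
      (hQ : ∀ z ∈ Q, z ≠ 0 → ∃ n : ℕ, n ≠ 0 ∧ ∃ (c : k) (l : ℕ) (a : Fin l → K) (e : Fin l → ℤ),
        (∀ i, a i ∈ P) ∧ z ^ n = algebraMap k K c * ∏ i, a i ^ e i) :
      IsAdmissible p k K Q

/-- Finite families of elements of `P` are boundary functions on log smooth models. -/
theorem mod_of_admissible (p : ℕ) [Fact p.Prime] (k : Type) [Field k] [PerfectField k]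
    [CharP k p] (K : Type) [Field K] [Algebra k K] (P : Set K) (h : IsAdmissible p k K P) :
    Pool.Agent.N762.FP.Mod k P := by
  induction h with
  | surface E h2 hE =>
    exact Pool.Agent.N762.FP.mod_base (Pool.Agent.W418.LCI.hasLM_of_surface k E h2 hE)
  | models E P hE => exact Pool.Agent.N762.FP.mod_models hE
  | product K₁ K₂ K P₁ P₂ h₁ h₂ ι₁ ι₂ hι hK ih₁ ih₂ =>
    exact Pool.Agent.N762.FP.mod_prod ι₁ ι₂ hι hK ih₁ ih₂
  | family L K F E P h hE e hF N r δ s y hy hr m hm hδ hs hp ih =>
    obtain ⟨htr, C, hC⟩ := hδ
    exact Pool.Agent.N762.FP.mod_fam p ih hE y m e hm hF hy r δ C htr hr hC s hs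
      (hp.imp (fun h => ⟨h.1, factorial_ne_zero_of_lt p (Fact.out : p.Prime) h.2⟩)
        (fun h => factorial_ne_zero_of_lt p (Fact.out : p.Prime) h))
  | element L K P h Δ hΔ Φ h0 hdeg hX hder hconst hQ z hz hz' ih =>
    exact Pool.Agent.N762.FP.mod_root ih Δ (factorial_ne_zero_of_lt p (Fact.out : p.Prime) hΔ) Φ
      h0 hdeg hX hder hconst hQ z hz hz'
  | radical L K P h g w n hw0 hn hw hK ih =>
    exact Pool.Agent.N762.FP.mod_rad p ih w hw0 n hn hw hK
  | saturation K P Q h hQ ih => exact Pool.Agent.N762.FP.mod_sat ih hQ

/-- Let `k` be a perfect field of characteristic `p`, and let `(K, P)` be a pair of an extension of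
`k` and a set of its elements which is obtained from function fields of surfaces by the operations
of `IsAdmissible`. Let `V` be a valuation ring of `K`, of any rank, which contains `k`. Then `K` has
a projective model over `k` on which the centre of `V` is a regular point. -/
theorem result (p : ℕ) [Fact p.Prime] (k : Type) [Field k] [PerfectField k] [CharP k p]
    (K : Type) [Field K] [Algebra k K] (P : Set K) (hP : IsAdmissible p k K P)
    (V : ValuationSubring K) (hkV : ∀ a : k, algebraMap k K a ∈ V) :
    IsUniformizable k V := by
  classical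
  obtain ⟨T, I, hT, hI, M, hFr, -⟩ := mod_of_admissible p k K P hP
    Empty (fun b => b.elim) (fun b => b.elim) (fun b => b.elim)
  obtain ⟨t, ht⟩ := M.cv V (by
    intro a ha
    obtain ⟨c, rfl⟩ := Algebra.mem_bot.1 ha
    exact hkV c)
  have hsm := M.sm t
  have hft : Algebra.FiniteType k (M.A t) := inferInstance
  obtain ⟨S, hS⟩ := (M.A t).fg_iff_finiteType.2 hft
  -- homogeneous coordinates
  let H : Fin (S.card + 1) → K := Fin.cons 1 (fun i => ((S.equivFin.symm i : S) : K))
  have hH0 : H 0 = 1 := rfl
  have hHs : ∀ i : Fin S.card, H i.succ = ((S.equivFin.symm i : S) : K) := fun i => rfl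
  have hmc : modelChart k H 0 = M.A t := by
    unfold modelChart
    rw [← hS]
    apply le_antisymm
    · refine Algebra.adjoin_le ?_
      rintro _ ⟨l, rfl⟩
      change H l / H 0 ∈ _
      rw [hH0, div_one]
      induction l using Fin.cases with
      | zero => exact Subalgebra.one_mem _
      | succ i =>
        rw [hHs]
        exact Algebra.subset_adjoin (S.equivFin.symm i).2
    · refine Algebra.adjoin_le fun s hs => ?_
      refine Algebra.subset_adjoin ⟨(S.equivFin ⟨s, hs⟩).succ, ?_⟩
      change H _ / H 0 = s
      rw [hH0, div_one, hHs, Equiv.symm_apply_apply]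
  have hV : ∀ b ∈ modelChart k H 0, b ∈ V := fun b hb => ht b (hmc ▸ hb)
  refine ⟨S.card + 1, H, 0, by rw [hH0]; exact one_ne_zero, ?_, ?_, ?_⟩
  · intro l
    exact hV _ (Algebra.subset_adjoin ⟨l, rfl⟩)
  · intro z
    rw [hmc]
    obtain ⟨a, ha, b, hb, hb0, h⟩ := hFr t z
    exact ⟨a, ha, b, hb, hb0, by rw [h, div_eq_mul_inv]⟩
  · have hsm' : Algebra.Smooth k (modelChart k H 0) := by
      rw [hmc]
      exact hsm
    let φ : modelChart k H 0 →+* V :=
      { toFun := fun b => ⟨b, hV b b.2⟩
        map_one' := rfl
        map_zero' := rfl
        map_mul' := fun _ _ => rfl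
        map_add' := fun _ _ => rfl }
    let Q : Ideal (modelChart k H 0) := (IsLocalRing.maximalIdeal V).comap φ
    have hQ : Q.IsPrime := Ideal.IsPrime.comap φ
    refine ⟨Q, hQ, fun b => ?_, Pool.Agent.H920R2.regular_of_smooth (k := k) Q⟩
    change φ b ∈ IsLocalRing.maximalIdeal V ↔ _
    exact (V.valuation_lt_one_iff (φ b))

end Pool.Agent.Results.MP_53121e_ag.AdmissibleTowers
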