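import Pool.Agent.N98.RM.Num
import Pool.Agent.N98.Abs
import Pool.Agent.W418.Z.Reg

/-!
MP_4d1008_ag: models, proper over `ℤ`, of integral schemes of finite type over `ℤ` of bounded
degree, which are regular at all points of large residue characteristic.

Let `k` be a number field, `X` a variety over `k` of dimension `r` and degree at most `δ`, and `Y`
an integral scheme of finite type over `ℤ` whose function field is the function field of `X`. Then
`Y` is birational to an integral scheme `X'`, proper over `ℤ`, such that all local rings of `X'` at
the points of residue characteristic `0` or `> δ ^ 2 ^ r` are regular. So all fibres over the primes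
`p > δ ^ 2 ^ r` consist of regular points of `X'`, also the fibres over the primes where `X` has bad
reduction. For finite fields `k` of characteristic `p` we have the bound `δ ^ 2 ^ (r - 2) < p`, and
then `X'` is regular.

The proof does not use resolution of singularities in characteristic zero.
(1) Regular local rings with a part of a regular system of parameters, over an arbitrary noetherian
base ring `A` (here `A = 𝓞[1 / N]`, `N = (δ ^ 2 ^ r)!`): regular models of fields with a boundary
with strict normal crossings; blowups of strata; principalization of monomials; if `D` is a
logarithmic derivation and `D f / m`, `m` a boundary function, is a unit on the zero set of `f / m`,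
then this zero set can be added to the boundary.
(2) For a family of polynomials in `z` over `L`, closed under derivatives, of degrees `≤ d` with
`d!` invertible in `A`, such that the coefficients of the characteristic polynomials of the members
modulo each other are boundary functions on a model of `L`, there is a model of `L(z)` on which the
members are boundary functions, up to powers prime to the residue characteristics. Induction on the
number of variables: finite families of polynomials of degree `≤ D` in `n` variables over `k` become
locally monomial on a regular projective model over `A` if `(D ^ 2 ^ (n - 1))!` is invertible in `A`.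
(3) Restriction of the model to a hypersurface, and generic projections to hypersurfaces.
(4) Dedekind domains have such models. The homogeneous coordinates of the model over `𝓞[1 / N]`
define a scheme which is projective over `𝓞`.

helper98; built on the library of the starting files (helpers 558, 973, 418, 918, 968 and others).
-/

set_option autoImplicit false

open AlgebraicGeometry CategoryTheory Pool.Agent.W558 Pool.Agent.N98

namespace Pool.Agent.Results.MP_4d1008_ag.ArithmeticBoundedDegree

/-- The values at the point `x` of the polynomials over `k` of total degree at most `t`. -/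
noncomputable def values (k : Type) {K : Type} [Field k] [Field K] [Algebra k K] {N : ℕ}
    (x : Fin N → K) (t : ℕ) : Submodule k K :=
  (MvPolynomial.restrictTotalDegree (Fin N) k t).map
    (MvPolynomial.aeval x : MvPolynomial (Fin N) k →ₐ[k] K).toLinearMap

/-- The variety in the affine space over `k` with the generic point `x` (the zeros of the
polynomials which vanish at `x`), whose function field is `K`, has dimension `r` and degree at
most `δ`: its Hilbert function, the dimension of the space of the polynomial functions of degree
at most `t` on the variety, is at most `δ * t ^ r / r! + O (t ^ (r - 1))`. -/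
def DegreeAtMost (k : Type) {K : Type} [Field k] [Field K] [Algebra k K] {N : ℕ}
    (x : Fin N → K) (r δ : ℕ) : Prop :=
  IntermediateField.adjoin k (Set.range x) = ⊤ ∧ Algebra.trdeg k K = r ∧
    ∃ C : ℕ, ∀ t : ℕ, r.factorial * Module.finrank k (values k x t) ≤ δ * (t + C) ^ r

/-- Let `x = (x 1, ..., x N)` be the generic point of a variety in the affine space over `k`, with
function field `K`, of dimension `r` and degree at most `δ`. Let `k` be a number field and
`B = δ ^ 2 ^ r`, or let `k` be a finite field of characteristic `p > B`, `r ≥ 2` and
`B = δ ^ 2 ^ (r - 2)`. Then for every integral scheme `Y` of finite type over `ℤ` whose function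
field is isomorphic to `K` there is an integral scheme `X'`, proper over `ℤ`, with function field
isomorphic to that of `Y`, whose local rings at all points of residue characteristic `0` or `> B`
are regular. -/
theorem result (k K : Type) [Field k] [Field K] [Algebra k K] (N r δ B : ℕ) (x : Fin N → K)
    (hx : DegreeAtMost k x r δ)
    (hk : (NumberField k ∧ B = δ ^ 2 ^ r) ∨
      (Finite k ∧ 2 ≤ r ∧ B = δ ^ 2 ^ (r - 2) ∧ B < ringChar k))
    (Y : Scheme.{0}) (_ : IsIntegral Y) (s : Y ⟶ Spec (CommRingCat.of ℤ))
    (_ : LocallyOfFiniteType s) (_ : QuasiCompact s) (_ : Nonempty (Y.functionField ≃+* K)) :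
    ∃ (X' : Scheme.{0}) (_ : IsIntegral X') (g : X' ⟶ Spec (CommRingCat.of ℤ)),
      IsProper g ∧
      (∀ x : X', (ringChar (IsLocalRing.ResidueField (X'.presheaf.stalk x)) = 0 ∨
          B < ringChar (IsLocalRing.ResidueField (X'.presheaf.stalk x))) →
        (((Module.finrank (IsLocalRing.ResidueField (X'.presheaf.stalk x))
            (IsLocalRing.CotangentSpace (X'.presheaf.stalk x)) : ℕ∞)) : WithBot ℕ∞)
          = ringKrullDim (X'.presheaf.stalk x)) ∧
      Nonempty (X'.functionField ≃+* Y.functionField) := by
  obtain ⟨htop, htr, C, hC⟩ := hx
  obtain ⟨ε⟩ := ‹Nonempty (Y.functionField ≃+* K)›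
  rcases hk with ⟨hnf, rfl⟩ | ⟨hfin, hr, rfl, hp⟩
  · obtain ⟨X', hX', g, h1, h2, ⟨h3⟩⟩ := Pool.Agent.N98.RM.exists_num
      (O := NumberField.RingOfIntegers k) x htop r htr δ C hC
    refine ⟨X', hX', g, h1, fun x hx => ?_, ⟨h3.trans ε.symm⟩⟩
    have h4 := h2 x (Pool.Agent.N98.RM.isUnit_factorial _ _ hx)
    rw [← (IsRegularLocalRing.iff_finrank_cotangentSpace _).1 h4]
    rfl
  · set p := ringChar k with hpdef
    have hp0 : p ≠ 0 := by omega
    have hprime : p.Prime := by
      rcases CharP.char_is_prime_or_zero k p with h | h
      · exact h
      · exact absurd h hp0
    have : Fact p.Prime := ⟨hprime⟩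
    have hchar : CharP k p := ringChar.charP k
    obtain ⟨T, I, hT, hI, M, hFr, -⟩ := abs_models x htop r hr htr δ C hC
      (factorial_ne_zero_of_lt p hprime hp) Empty Empty.elim Empty.elim
      (fun b => b.elim)
    obtain ⟨X', hX', g, h1, h2, ⟨h3⟩⟩ := Pool.Agent.W418.Z.regular_of_LM M fun t z => by
      obtain ⟨a, ha, b, hb, hb0, rfl⟩ := hFr t z
      exact ⟨a, ha, b, hb, hb0, (div_eq_mul_inv _ _).symm⟩
    exact ⟨X', hX', g, h1, fun x _ => h2 x, ⟨h3.trans ε.symm⟩⟩

end Pool.Agent.Results.MP_4d1008_ag.ArithmeticBoundedDegree
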