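import Pool.Agent.N98.SS.Fin2
import Pool.Agent.N98.SS.Gener2
import Pool.Agent.TH188.QS.LU

/-!
MP_53121e_ag: local uniformization, in arbitrary dimension, of all valuations of the function fields
whose degree over the field of constants, or over a subfield on which the valuation is under
control, is small with respect to the characteristic.

Let `K / k` be an algebraic function field in any number of variables over an arbitrary field `k` of
characteristic `p > 0`, and let `V` be a valuation ring of `K / k`, of arbitrary rank, defect and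
value group. Let `E` be an infinite subfield of `K`, finitely generated over `k`, such that `E = k`,
or `V ∩ E` is a discrete valuation ring, or has divergent sequences of quadratic transforms, or is
log uniformizable (for example, `E` of transcendence degree at most `3` over a perfect field `k`, by
Cossart and Piltant). Let `K` be the function field of an affine variety over `E`, of dimension `r`
and degree at most `δ`, where `δ ^ 2 ^ r < p`. Then `V` admits local uniformization: `K` has a
projective model over `k` on which the centre of `V` is a regular point.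

The simplest case: `k` is infinite, and `K` is the function field of a subvariety of `ℙ^N_k` of
dimension `n` and degree `δ`, where `δ ^ 2 ^ n < p`; all valuations of `K / k` admit local
uniformization.

helper98; built on the library of the starting files.
-/

set_option autoImplicit false

universe u

namespace Pool.Agent.Results.MP_53121e_ag.BoundedDegreePlaces

open IsLocalRing Pool.Agent.W418.LU2 Pool.Agent.TH188.QS

/-- The coordinate ring `k[H l / H j : l]` of the chart `j` of the projective model of `K` with the
homogeneous coordinates `H`. -/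
def modelChart (k : Type u) {K : Type u} [Field k] [Field K] [Algebra k K] {N : ℕ} (H : Fin N → K)
    (j : Fin N) : Subalgebra k K :=
  Algebra.adjoin k (Set.range fun l => H l / H j)

/-- The function field `K` of `k` has a projective model (with homogeneous coordinates `H`) on
which the centre of the valuation ring `V` is a regular point. The chart `j` contains the centre of
`V`, and `P` is the ideal of the centre. -/
def IsUniformizable (k : Type u) {K : Type u} [Field k] [Field K] [Algebra k K]
    (V : ValuationSubring K) : Prop :=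
  ∃ (N : ℕ) (H : Fin N → K) (j : Fin N), H j ≠ 0 ∧ (∀ l, H l / H j ∈ V) ∧
    (∀ z : K, ∃ a ∈ modelChart k H j, ∃ b ∈ modelChart k H j, b ≠ 0 ∧ z = a / b) ∧
    ∃ P : Ideal (modelChart k H j), ∃ (_ : P.IsPrime),
      (∀ b : modelChart k H j, b ∈ P ↔ V.valuation (b : K) < 1) ∧
        IsRegularLocalRing (Localization.AtPrime P)

/-- The local ring of `Spec B` at the centre of the valuation ring `V`: the fractions of elements
of `B` whose denominators are units of `V`. -/
def centreRing {F : Type u} [Field F] (V : ValuationSubring F) (B : Subring F) : Subring F where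
  carrier := {x | ∃ a ∈ B, ∃ b ∈ B, b ≠ 0 ∧ b⁻¹ ∈ V ∧ x = a * b⁻¹}
  mul_mem' := (lo V.toSubring B).mul_mem'
  one_mem' := (lo V.toSubring B).one_mem'
  add_mem' := (lo V.toSubring B).add_mem'
  zero_mem' := (lo V.toSubring B).zero_mem'
  neg_mem' := (lo V.toSubring B).neg_mem'

/-- The quadratic transform of `Q` along `V`: the local ring, at the centre of `V`, of the
blowing-up of `Spec Q` in the centre of `V`. -/
def quadraticTransform {K : Type u} [Field K] (V : ValuationSubring K) (Q : Subring K) :
    Subring K :=
  centreRing V (Subring.closure ((Q : Set K) ∪ {t | ∃ y ∈ Q, ∃ z ∈ Q,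
    V.valuation y < 1 ∧ z ≠ 0 ∧ V.valuation z < 1 ∧
      (∀ w ∈ Q, V.valuation w < 1 → V.valuation w ≤ V.valuation z) ∧ t = y / z}))

/-- The sequence of quadratic transforms of the local ring of `Spec A` at the centre of `V`. -/
def quadraticSequence {K : Type u} [Field K] (V : ValuationSubring K) (A : Subring K) :
    ℕ → Subring K
  | 0 => centreRing V A
  | n + 1 => quadraticTransform V (quadraticSequence V A n)

/-- The values of the maximal ideals in the sequence of quadratic transforms have an infinite sum:
every value of `V` is exceeded by the value of all products `z 0 * ... * z (n - 1)` of elements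
`z i` of the maximal ideals of the rings of the sequence, for some `n`. -/
def IsDivergent {K : Type u} [Field K] (V : ValuationSubring K) (A : Subring K) : Prop :=
  ∀ x : K, x ≠ 0 → ∃ n : ℕ, ∀ z : ℕ → K,
    (∀ i < n, z i ∈ quadraticSequence V A i ∧ z i ≠ 0 ∧ V.valuation (z i) < 1) →
      V.valuation (∏ i ∈ Finset.range n, z i) < V.valuation x

/-- The chart `A[I / f]` of the blowing-up of `Spec A` in the ideal `I`. -/
def blowUpChart {F : Type u} [Field F] (A : Subring F) (I : Ideal A) (f : A) : Subring F :=
  Subring.closure ((A : Set F) ∪ {z | ∃ a ∈ I, z = (a : F) / (f : F)})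

/-- `P` is a regular local ring and the zero set of `J` is a divisor with strict normal
crossings: the radical of `J` is generated by the product of some of the elements of a regular
system of parameters. -/
def RegularPair (P : Type u) [CommRing P] (J : Ideal P) : Prop :=
  ∃ (_ : IsRegularLocalRing P) (n : ℕ) (x : Fin n → P) (s : Finset (Fin n)),
    Ideal.span (Set.range x) = IsLocalRing.maximalIdeal P ∧ ringKrullDim P = n ∧
      J.radical = Ideal.span {∏ i ∈ s, x i}

/-- The blowing-up of `X = Spec A` in `V(I)` is a log desingularization of `(X, V(D))` along the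
valuation ring `V`. Here `f ∈ I` generates `I V`, the centre of the lift of the valuation lies in
the chart `Spec A[I / f]`, and the ideal `D I` defines the preimage of `V(D) ∪ V(I)`. -/
def IsLogDesingularization {F : Type u} [Field F] (V : ValuationSubring F) (A : Subring F)
    (D I : Ideal A) : Prop :=
  ∃ f ∈ I, f ≠ 0 ∧ (∀ a ∈ I, (a : F) / (f : F) ∈ V) ∧
    RegularPair (centreRing V (blowUpChart A I f))
      (Ideal.span {z | ∃ a ∈ D * I, (z : F) = (a : F)})

/-- The valuation ring `V` is log uniformizable on `Spec A`. (The blowings-up in the ideals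
`I₀ * I₁` are cofinal: the blowing-up in `I₀ * I₁` factors through the blowing-up in `I₀`.) -/
def IsLogUniformizable {F : Type u} [Field F] (V : ValuationSubring F) (A : Subring F) : Prop :=
  ∀ D I₀ : Ideal A, D ≠ ⊥ → I₀ ≠ ⊥ →
    ∃ I₁ : Ideal A, I₁ ≠ ⊥ ∧ IsLogDesingularization V A D (I₀ * I₁)

/-- Every element of the field `K` is a fraction of elements of `A`. -/
def HasFractionField {K : Type u} [Field K] (A : Subring K) : Prop :=
  ∀ z : K, ∃ a ∈ A, ∃ b ∈ A, b ≠ 0 ∧ z = a * b⁻¹

/-- `V` is a discrete valuation ring, or the sequence of quadratic transforms of `Spec A` along `V`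
is divergent for all `O`-algebras `A ⊆ V` of finite type, or `V` is log uniformizable on `Spec A` for
all `O`-algebras `A ⊆ V` of finite type with the fraction field `K`. -/
def IsAdmissible {K : Type u} [Field K] (O : Subring K) (V : ValuationSubring K) : Prop :=
  IsDiscreteValuationRing V ∨
    (∀ T : Set K, T.Finite → Subring.closure ((O : Set K) ∪ T) ≤ V.toSubring →
      IsDivergent V (Subring.closure ((O : Set K) ∪ T))) ∨
    ∀ T : Set K, T.Finite → Subring.closure ((O : Set K) ∪ T) ≤ V.toSubring →
      HasFractionField (Subring.closure ((O : Set K) ∪ T)) →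
      IsLogUniformizable V (Subring.closure ((O : Set K) ∪ T))

/-- The values at the point `x` of the polynomials over `E` of total degree at most `t`. -/
noncomputable def values (E : Type u) {K : Type u} [Field E] [Field K] [Algebra E K] {N : ℕ}
    (x : Fin N → K) (t : ℕ) : Submodule E K :=
  (MvPolynomial.restrictTotalDegree (Fin N) E t).map
    (MvPolynomial.aeval x : MvPolynomial (Fin N) E →ₐ[E] K).toLinearMap

/-- The variety in the affine space over `E` with the generic point `x` (the zeros of the
polynomials which vanish at `x`), whose function field is `K`, has dimension `r` and degree at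
most `δ`: its Hilbert function, the dimension of the space of the polynomial functions of degree
at most `t` on the variety, is at most `δ * t ^ r / r! + O (t ^ (r - 1))`. -/
def DegreeAtMost (E : Type u) {K : Type u} [Field E] [Field K] [Algebra E K] {N : ℕ}
    (x : Fin N → K) (r δ : ℕ) : Prop :=
  IntermediateField.adjoin E (Set.range x) = ⊤ ∧ Algebra.trdeg E K = r ∧
    ∃ C : ℕ, ∀ t : ℕ, r.factorial * Module.finrank E (values E x t) ≤ δ * (t + C) ^ r

lemma quadraticSequence_eq {K : Type u} [Field K] (V : ValuationSubring K) (A : Subring K) :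
    quadraticSequence V A = qseq V A := by
  funext n
  induction n with
  | zero => rfl
  | succ n ih =>
    change quadraticTransform V (quadraticSequence V A n) = qt V.toSubring (qseq V A n)
    rw [ih, qt_val]
    rfl

lemma IsDivergent.dv {K : Type u} [Field K] {V : ValuationSubring K} {A : Subring K}
    (h : IsDivergent V A) : Dv V (qseq V A) := by
  rw [← quadraticSequence_eq]
  exact dv_of_lt h

/-- The Jacobian condition for the image of a field. -/
lemma hj_sub {k K : Type u} [Field k] [Field K] (f : k →+* K) : HJ f.range := by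
  intro L _ ρ T hT hL
  have h1 : ((ρ.comp f.rangeRestrict).range : Subring L) = ρ.range := by
    ext z
    constructor
    · rintro ⟨a, rfl⟩
      exact ⟨_, rfl⟩
    · rintro ⟨a, rfl⟩
      obtain ⟨b, hb⟩ := f.rangeRestrict_surjective a
      exact ⟨b, by rw [← hb]; rfl⟩
  have h2 := (hj_field : HJ k) L (ρ.comp f.rangeRestrict) T hT
  rw [h1] at h2
  exact h2 hL

/-- Let `K / k` be a field extension, and let `V` be a valuation ring of `K` which contains `k`. Let
`E ⊆ K` be an infinite field which is finitely generated over `k`. Suppose that `V ∩ E` is a discrete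
valuation ring, or that the sequences of quadratic transforms of the `k`-algebras of finite type in
`V ∩ E` are divergent (for example, `E = k`), or that `V ∩ E` is log uniformizable on the
`k`-algebras of finite type in `V ∩ E` with the fraction field `E`. Let `K` be the function field of
an affine variety over `E`, with the generic point `x`, of dimension `r` and degree at most `δ`, such
that the primes `≤ δ ^ 2 ^ r` are not zero in `k` (that is, `k` has characteristic zero or
`p > δ ^ 2 ^ r`). Then `K` has a projective model over `k` on which the centre of `V` is a regular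
point. -/
theorem result {k K : Type u} [Field k] [Field K] [Algebra k K] (V : ValuationSubring K)
    (hkV : ∀ a : k, algebraMap k K a ∈ V) (E : Subfield K) [Infinite E]
    (hE : ∃ T : Set K, T.Finite ∧ E = Subfield.closure (Set.range (algebraMap k K) ∪ T))
    (hEV : IsAdmissible ((algebraMap k K).range.comap E.subtype) (V.comap E.subtype))
    (N r δ : ℕ) (x : Fin N → K) (hx : DegreeAtMost E x r δ)
    (hp : ∀ p : ℕ, p.Prime → p ≤ δ ^ 2 ^ r → (p : k) ≠ 0) :
    IsUniformizable k V := by
  classical
  obtain ⟨htop, htr, C, hC⟩ := hx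
  obtain ⟨T, hT, hE⟩ := hE
  set O : Subring K := (algebraMap k K).range with hO
  have hOV : ∀ a ∈ O, a ∈ V := by
    rintro _ ⟨a, rfl⟩
    exact hkV a
  have hR : HJ O := hj_sub (algebraMap k K)
  have hE' : E = Subfield.closure ((O : Set K) ∪ T) := hE
  have hOE : ∀ a : O, (a : K) ∈ E := by
    intro a
    rw [hE']
    exact Subfield.subset_closure (Or.inl a.2)
  -- the restriction to `E`
  let ρ : O →+* E := O.subtype.codRestrict E.toSubring hOE
  have hρO : ((ρ.range : Subring E) : Set E) = (O.comap E.subtype : Set E) := by
    ext z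
    constructor
    · rintro ⟨a, rfl⟩
      exact a.2
    · intro hz
      exact ⟨⟨(z : K), hz⟩, rfl⟩
  have hgen : ∃ S : Set E, S.Finite ∧ ∀ z : E, Fr (Pool.Agent.R187.CT.rg ρ S) z := by
    refine ⟨E.subtype ⁻¹' T, hT.preimage (E.subtype.injective.injOn), fun z => ?_⟩
    have h1 : Subfield.closure ((O : Set K) ∪ T) ≤
        (fr (Pool.Agent.R187.CT.rg ρ (E.subtype ⁻¹' T))).map E.subtype := by
      rw [Subfield.closure_le]
      rintro x (hx | hx)
      · exact ⟨ρ ⟨x, hx⟩, le_fr _ (Subring.subset_closure (Or.inl ⟨⟨x, hx⟩, rfl⟩)), rfl⟩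
      · have hxE : x ∈ E := by
          rw [hE']
          exact Subfield.subset_closure (Or.inr hx)
        exact ⟨⟨x, hxE⟩, le_fr _ (Subring.subset_closure (Or.inr hx)), rfl⟩
    rw [← hE'] at h1
    obtain ⟨y, hy, hyz⟩ := h1 z.2
    have h2 : y = z := E.subtype.injective hyz
    rw [h2] at hy
    exact Pool.Agent.R187.CT.fr_iff.2 hy
  have hgE : Pool.Agent.R187.CT.Good ρ (V.comap (algebraMap E K)) := by
    have h1 : ∀ T : Set E, Pool.Agent.R187.CT.rg ρ T =
        Subring.closure (((O.comap E.subtype : Subring E) : Set E) ∪ T) := by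
      intro T
      change Subring.closure (((ρ.range : Subring E) : Set E) ∪ T) = _
      rw [hρO]
    rcases hEV with h | h | h
    · exact Pool.Agent.R187.CT.good_dv hR ρ _ (Or.inl h)
    · refine Pool.Agent.R187.CT.good_dv hR ρ _ (Or.inr fun T hT hTV => ?_)
      rw [h1] at hTV ⊢
      exact (h T hT hTV).dv
    · refine Pool.Agent.R187.CT.good_given hR ρ _ hgen fun T hT hTV hTE => ?_
      rw [h1] at hTV hTE ⊢
      exact h T hT hTV hTE
  -- the chart
  let W : Set K := {1} ∪ (Set.range x ∪ T)
  have hW : W.Finite := (Set.finite_singleton _).union ((Set.finite_range x).union hT)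
  have hW1 : (1 : K) ∈ W := Or.inl rfl
  obtain ⟨w, hw, hwm⟩ := Set.exists_max_image W V.valuation hW ⟨1, hW1⟩
  have hw0 : w ≠ 0 := by
    rintro rfl
    have h1 := hwm 1 hW1
    rw [map_zero, map_one] at h1
    exact absurd h1 (not_le.2 zero_lt_one)
  have hwV : ∀ v ∈ W, v / w ∈ V := by
    intro v hv
    rw [← V.valuation_le_one_iff, map_div₀]
    exact (div_le_one₀ (zero_lt_iff.2 ((map_ne_zero _).2 hw0))).2 (hwm v hv)
  have hTE : ∀ t ∈ T, t ∈ E := by
    intro t ht
    rw [hE']
    exact Subfield.subset_closure (Or.inr ht)
  have hWp : ∀ z ∈ W, Pool.Agent.N98.RW.PProd (E := E) x 1 z := by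
    rintro z (rfl | ⟨j, rfl⟩ | hz)
    · have h1 := Pool.Agent.N98.SS.pprod_const (E := E) (K := K) (x := x) (e := 1) (1 : E)
      rwa [map_one] at h1
    · refine ⟨1, fun _ => MvPolynomial.X j, fun _ => 1, fun _ => ?_, ?_⟩
      · exact (MvPolynomial.totalDegree_X j).le
      · rw [Fin.prod_univ_one, zpow_one, MvPolynomial.aeval_X]
    · exact Pool.Agent.N98.SS.pprod_const (E := E) (K := K) (x := x) (e := 1) ⟨z, hTE z hz⟩
  have hbw : ∀ z ∈ W, ∃ b ∈ Pool.Agent.H176.DT.ch O W w, b ≠ 0 ∧
      Pool.Agent.N98.RW.PProd (E := E) x 1 b ∧ b * z ∈ Pool.Agent.H176.DT.ch O W w := by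
    intro z hz
    refine ⟨1 / w, Subring.subset_closure (Or.inr ⟨1, hW1, rfl⟩), one_div_ne_zero hw0, ?_, ?_⟩
    · rw [one_div]
      exact Pool.Agent.N98.SS.pprod_inv (hWp w hw)
    · refine Subring.subset_closure (Or.inr ⟨z, hz, ?_⟩)
      rw [one_div, div_eq_mul_inv, mul_comm]
  have hprimes : ∀ q : ℕ, q.Prime → q ≤ (δ * 1 ^ r) ^ 2 ^ r → V.valuation (q : K) = 1 := by
    intro q hq hqb
    rw [one_pow, mul_one] at hqb
    have h1 := hp q hq hqb
    have h2 : ((q : k)⁻¹ * (q : k)) = 1 := inv_mul_cancel₀ h1
    have h3 : algebraMap k K (q : k)⁻¹ * (q : K) = 1 := by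
      rw [← map_natCast (algebraMap k K) q, ← map_mul, h2, map_one]
    have h4 : V.valuation (algebraMap k K (q : k)⁻¹) ≤ 1 := (V.valuation_le_one_iff _).2 (hkV _)
    have h5 : V.valuation (q : K) ≤ 1 := (V.valuation_le_one_iff _).2 (natCast_mem V q)
    refine le_antisymm h5 ?_
    calc (1 : V.ValueGroup) = V.valuation (algebraMap k K (q : k)⁻¹) * V.valuation (q : K) := by
          rw [← map_mul, h3, map_one]
      _ ≤ 1 * V.valuation (q : K) := mul_le_mul' h4 le_rfl
      _ = V.valuation (q : K) := one_mul _
  obtain ⟨⟨hAV, hAK⟩, T', n, X, hSt, -⟩ := Pool.Agent.N98.SS.stage_of_model' V O hOV hR E le_rfl x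
    htop htr C hC hprimes hW hWp hw hwV (fun j => hbw _ (Or.inr (Or.inl ⟨j, rfl⟩))) hT hE'
    (fun t ht => hbw t (Or.inr (Or.inr ht))) hOE hgE ∅ Set.finite_empty (fun g hg => hg.elim)
  set A := Pool.Agent.H176.DT.ch O W w with hA
  set S : Set K := {z | ∃ v ∈ W, z = v / w} with hS
  have hSf : S.Finite := by
    refine (hW.image fun v => v / w).subset ?_
    rintro _ ⟨v, hv, rfl⟩
    exact ⟨v, hv, rfl⟩
  have hAS : A = Subring.closure (((algebraMap k K).range : Set K) ∪ S) := rfl
  have hT'f := hSt.fin
  have hreg := hSt.reg.reg
  have hT'V : Subring.closure ((A : Set K) ∪ T') ≤ V.toSubring := fun z hz =>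
    hSt.reg.PA (le_lo _ _ hz)
  -- homogeneous coordinates
  obtain ⟨M, t, ht⟩ := exists_fin_range (hSf.union hT'f)
  let H : Fin (M + 1) → K := Fin.cons 1 t
  have hH0 : H 0 = 1 := rfl
  have hHs : ∀ i : Fin M, H i.succ = t i := fun i => rfl
  have hHr : Set.range (fun l => H l / H 0) = insert 1 (S ∪ T') := by
    rw [← ht]
    ext z
    simp only [hH0, div_one]
    constructor
    · rintro ⟨l, rfl⟩
      induction l using Fin.cases with
      | zero => exact Or.inl rfl
      | succ i => exact Or.inr ⟨i, rfl⟩
    · rintro (rfl | ⟨i, rfl⟩)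
      · exact ⟨0, rfl⟩
      · exact ⟨i.succ, rfl⟩
  have hcl : Subring.closure ((((algebraMap k K).range : Subring K) : Set K) ∪
      insert 1 (S ∪ T')) = Subring.closure ((A : Set K) ∪ T') := by
    apply le_antisymm
    · rw [Subring.closure_le]
      rintro z (hz | rfl | hz | hz)
      · exact Subring.subset_closure (Or.inl (Subring.subset_closure (Or.inl hz)))
      · exact Subring.one_mem _
      · exact Subring.subset_closure (Or.inl (Subring.subset_closure (Or.inr hz)))
      · exact Subring.subset_closure (Or.inr hz)
    · rw [Subring.closure_le]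
      rintro z (hz | hz)
      · refine (Subring.closure_mono ?_) hz
        rintro w (hw | hw)
        · exact Or.inl hw
        · exact Or.inr (Or.inr (Or.inl hw))
      · exact Subring.subset_closure (Or.inr (Or.inr (Or.inr hz)))
  have hVcl : Subring.closure ((((algebraMap k K).range : Subring K) : Set K) ∪
      insert 1 (S ∪ T')) ≤ V.toSubring := by
    rw [hcl]
    exact hT'V
  have hch : (modelChart k H 0).toSubring = Subring.closure ((A : Set K) ∪ T') := by
    unfold modelChart
    rw [adjoin_toSubring, hHr, hcl]
  obtain ⟨h3, P, hP, h4, h5⟩ := regular_centre (R := k) (T := Set.range fun l => H l / H 0)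
    (V := V) (by rw [hHr]; exact hVcl) (by rw [hHr, hcl]; exact hreg)
  refine ⟨M + 1, H, 0, by rw [hH0]; exact one_ne_zero, ?_, ?_, P, hP, h4, h5⟩
  · intro l
    exact h3 ⟨H l / H 0, Algebra.subset_adjoin ⟨l, rfl⟩⟩
  · intro z
    obtain ⟨a, ha, b, hb, hb0, hz⟩ := hAK z
    have hle : A ≤ (modelChart k H 0).toSubring := by
      rw [hch]
      exact fun x hx => Subring.subset_closure (Or.inl hx)
    exact ⟨a, hle ha, b, hle hb, hb0, by rw [hz, div_eq_mul_inv]⟩

end Pool.Agent.Results.MP_53121e_ag.BoundedDegreePlaces
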