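import Pool.Agent.N98.VG.AsmC
import Pool.Agent.H176.DT.H14

/-!
MP_aca629_ag: local semistable reduction over one-dimensional bases, along all valuations which are
centred over the special point, for projective schemes of bounded degree.

Let `B = Spec O` be an integral regular scheme of dimension one with a function field `k` of
characteristic zero (for example, `O = ℤ` or `ℤ_p`), let `X` be an integral projective `B`-scheme of
relative dimension `r` with the function field `K`, and let `V` be a valuation ring of `K`, of any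
rank, with centre a closed point `b` of `B`, with the local parameter `π`, such that every value of
`V` is exceeded by the value of a power of `π`. Let `p ≥ 0` be the characteristic of the residue
field of `b`. Suppose that the generic fibre of `X` has degree at most `δ`, that `X` is defined by
polynomials of degree at most `e`, and that `p = 0` or `p > (δ e ^ r) ^ 2 ^ r`.

Then there are `d` and `N₀` such that for all `N ≥ N₀` divisible by `d` the following holds for the
projective alteration `B' = Spec O[ϖ] → B`, `ϖ ^ N = π`: for some valuation ring `V'` of `K' = K(ϖ)`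
over `V` there is a projective modification `X'` of the proper transform of `X` (a blowing-up in a
closed subscheme of the fibre `ϖ = 0`) such that `X' → B'` is semistable at the centre of `V'`, and at
the centres of all valuation rings `V₁ ⊇ V'` with `|ϖ| < 1`.

The starting results (LocalSemistableReduction, TowersOverValuations) are about valuations of rank
one which are reached without defect, such that `|π|` is not a `p`-th power in the value group. Here
the valuation, its rank, its defect and its value group are arbitrary, and the degree is bounded in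
terms of the residue characteristic.

helper98; built on the library of the starting files. The main part is the same as in
MP_1a953e_ag.BoundedDegreeUniformization (about points of the adic space).
-/

set_option autoImplicit false

universe u

namespace Pool.Agent.Results.MP_aca629_ag.BoundedDegreeSemistable

open IsLocalRing Pool.Agent.W418.LU2 Pool.Agent.TH188.QS

/-- The local ring of `Spec B` at the centre of the valuation ring `V`: the fractions of elements
of `B` whose denominators are units of `V`. -/
def centreRing {F : Type u} [Field F] (V : ValuationSubring F) (B : Subring F) : Subring F where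
  carrier := {x | ∃ a ∈ B, ∃ b ∈ B, b ≠ 0 ∧ b⁻¹ ∈ V ∧ x = a * b⁻¹}
  mul_mem' := (lo V.toSubring B).mul_mem'
  one_mem' := (lo V.toSubring B).one_mem'
  add_mem' := (lo V.toSubring B).add_mem'
  zero_mem' := (lo V.toSubring B).zero_mem'
  neg_mem' := (lo V.toSubring B).neg_mem'

/-- Let `Q` and `P` be the local rings of `B'` at a closed point and of `X'` at a point over it, as
subrings of the function field of `X'`. The ring `Q` is a discrete valuation ring, `P` is regular,
and a local parameter `ϖ` of `Q` is the product of some (at least one) of the elements of a regular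
system of parameters of `P`. -/
def IsSemistable {K : Type u} [Field K] (Q P : Subring K) : Prop :=
  ∃ (_ : IsDiscreteValuationRing Q) (_ : IsRegularLocalRing P) (ϖ : Q) (n : ℕ) (x : Fin n → P)
    (S : Finset (Fin n)), Q ≤ P ∧ IsLocalRing.maximalIdeal Q = Ideal.span {ϖ} ∧
      Ideal.span (Set.range x) = IsLocalRing.maximalIdeal P ∧ ringKrullDim P = n ∧
      S.Nonempty ∧ (ϖ : K) = ∏ i ∈ S, (x i : K)

/-- The coordinate ring `O[v / w : v ∈ W]` of the chart `w ≠ 0` of the projective `O`-scheme
`Proj O[W]` with the function field `K` and the homogeneous coordinates `W ⊆ K`. -/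
def chart {K : Type u} [Field K] (O : Subring K) (W : Set K) (w : K) : Subring K :=
  Subring.closure ((O : Set K) ∪ {z | ∃ v ∈ W, z = v / w})

/-- `Y` is a finite set of forms of some degree `d` over `O` in the homogeneous coordinates `W`,
and `p ^ n` times any form of degree `d` is a linear combination of the forms in `Y`, for some `n`.
So the closed subscheme of `Proj O[W]` defined by the forms in `Y` is contained in the
fibre over `p`. -/
def IsVerticalCentre {K : Type u} [Field K] (O : Subring K) (p : K) (W Y : Set K) : Prop :=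
  Y.Finite ∧ ∃ d n : ℕ, Y ⊆ ((Submodule.span O W) ^ d : Submodule O K) ∧
    ∀ z ∈ (Submodule.span O W) ^ d, p ^ n * z ∈ Submodule.span O Y

/-- The homogeneous coordinates of the blowing-up of `Proj O[W]` in the closed subscheme which is
defined by the forms in `Y`. -/
def blowUpCoordinates {K : Type u} [Field K] (W Y : Set K) : Set K :=
  {z | ∃ y ∈ Y, ∃ v ∈ W, z = y * v}

/-- The morphism `Proj O[W] → Spec O` is semistable at the centre of `V`, which lies in the chart
`w ≠ 0`. -/
def IsSemistableAt {K : Type u} [Field K] (V : ValuationSubring K) (O : Subring K)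
    (W : Set K) : Prop :=
  ∃ w ∈ W, w ≠ 0 ∧ (∀ v ∈ W, v / w ∈ V) ∧
    IsSemistable (centreRing V O) (centreRing V (chart O W w))

/-- The ring `O[ϖ]`. (If `O` is a discrete valuation ring with the uniformizer `π = ϖ ^ N`, then it
is the ring of integers of the totally ramified extension `k(ϖ)` of the field of fractions `k` of
`O`.) -/
def ramifiedRing {L K' : Type u} [Field L] [Field K'] (φ : L →+* K') (O : Subring L) (ϖ : K') :
    Subring K' :=
  Subring.closure ((O.map φ : Set K') ∪ {ϖ})

/-- `K' = K(ϖ)` with `ϖ ^ N = π`, and `V'` is a valuation ring of `K'` over the valuation ring `V`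
of `K`. -/
def IsLift {K K' : Type u} [Field K] [Field K'] [Algebra K K'] (V : ValuationSubring K) (π : K)
    (N : ℕ) (V' : ValuationSubring K') (ϖ : K') : Prop :=
  V'.comap (algebraMap K K') = V ∧ ϖ ^ N = algebraMap K K' π ∧
    ∀ z : K', z ∈ Subfield.closure (Set.range (algebraMap K K') ∪ {ϖ})

/-- The values at the point `x` of the polynomials over `E` of total degree at most `t`. -/
noncomputable def values (E : Type u) {K : Type u} [Field E] [Field K] [Algebra E K] {N : ℕ}
    (x : Fin N → K) (t : ℕ) : Submodule E K :=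
  (MvPolynomial.restrictTotalDegree (Fin N) E t).map
    (MvPolynomial.aeval x : MvPolynomial (Fin N) E →ₐ[E] K).toLinearMap

/-- The variety in the affine space over `E` with the generic point `x` (the zeros of the
polynomials which vanish at `x`), whose function field is `K`, has dimension `r` and degree at
most `δ`: its Hilbert function, the dimension of the space of the polynomial functions of degree
at most `t` on the variety, is at most `δ * t ^ r / r! + O (t ^ (r - 1))`. -/
def DegreeAtMost (E : Type u) {K : Type u} [Field E] [Field K] [Algebra E K] {N : ℕ}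
    (x : Fin N → K) (r δ : ℕ) : Prop :=
  IntermediateField.adjoin E (Set.range x) = ⊤ ∧ Algebra.trdeg E K = r ∧
    ∃ C : ℕ, ∀ t : ℕ, r.factorial * Module.finrank E (values E x t) ≤ δ * (t + C) ^ r

/-- The element `z` is a product of (positive or negative) powers of polynomials of degree at most
`e` in the `x j` with coefficients in `E`. -/
def IsProduct (E : Type u) {K : Type u} [Field E] [Field K] [Algebra E K] {N : ℕ}
    (x : Fin N → K) (e : ℕ) (z : K) : Prop :=
  ∃ (q : ℕ) (P : Fin q → MvPolynomial (Fin N) E) (n : Fin q → ℤ),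
    (∀ i, (P i).totalDegree ≤ e) ∧ z = ∏ i, MvPolynomial.aeval x (P i) ^ n i

/-- The element `z` is a fraction of elements of `A` whose denominator is a product of (positive or
negative) powers of polynomials of degree at most `e` in the `x j` with coefficients in `E`. -/
def IsFraction (E : Type u) {K : Type u} [Field E] [Field K] [Algebra E K] {N : ℕ}
    (x : Fin N → K) (e : ℕ) (A : Subring K) (z : K) : Prop :=
  ∃ b ∈ A, b ≠ 0 ∧ IsProduct E x e b ∧ b * z ∈ A

/-- The homogeneous coordinates `W` of the projective `O`-scheme `𝒳 = Proj O[W]` are products of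
powers of polynomials of degree at most `e` in the `x j` over `k`, and the `x j` are fractions of
elements of the coordinate ring of the chart `w ≠ 0` whose denominators are such products. (So `K`
is the function field of `𝒳`.) -/
def IsDefinedInDegree {K : Type u} [Field K] (O : Subring K) (k : Subfield K) {N : ℕ}
    (x : Fin N → K) (e : ℕ) (W : Set K) (w : K) : Prop :=
  (∀ z ∈ W, IsProduct k x e z) ∧ ∀ j, IsFraction k x e (chart O W w) (x j)

/-- Let `V` be a valuation ring, of any rank, of a field `K` of characteristic zero. Let `O ⊆ V` be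
a Dedekind domain with the field of fractions `k ⊆ K`, and let `π ∈ O` be a local parameter at the
centre `b` of `V` on `Spec O`, such that every value of `V` is exceeded by the value of a power of
`π`. Let `X` be an integral projective `O`-scheme with function field `K` and with the homogeneous
coordinates `W`; let the chart `w ≠ 0` contain the centre of `V`. Let `x` be the generic point of an
affine variety over `k` with the function field `K`, of dimension `r` and degree at most `δ`, such
that `X` is defined in degree `e ≥ 1`. Suppose that the primes `≤ (δ e ^ r) ^ 2 ^ r` are units of `V`.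

Then there are `d` and `N₀` such that for all `N ≥ N₀` divisible by `d` there are `K' = K(ϖ)`,
`ϖ ^ N = π`, and a valuation ring `V'` of `K'` over `V`, and a closed subscheme of the fibre over
`ϖ = 0` of the proper transform of `X` (the component with the function field `K'`) over `O[ϖ]`, such
that the blowing-up in this subscheme is semistable over `Spec O[ϖ]` at the centre of `V'` and at the
centres of all valuation rings `V₁ ⊇ V'` with `|ϖ| < 1`. -/
theorem result {K : Type u} [Field K] [CharZero K] (V : ValuationSubring K)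
    (O : Subring K) [IsDedekindDomain O] (hO : ∀ a ∈ O, a ∈ V)
    (π : K) (hπ : π ∈ O) (hπ0 : π ≠ 0) (hπ1 : V.valuation π < 1)
    (hπV : ∀ z : K, z ≠ 0 → ∃ n : ℕ, V.valuation π ^ n ≤ V.valuation z)
    (hπO : ∀ a ∈ O, V.valuation a < 1 →
      ∃ b ∈ O, ∃ c ∈ O, V.valuation c = 1 ∧ c * a = π * b)
    (k : Subfield K) (hk : k = Subfield.closure (O : Set K))
    (N r δ e : ℕ) (he : 1 ≤ e) (x : Fin N → K) (hx : DegreeAtMost k x r δ)
    (hp : ∀ p : ℕ, p.Prime → p ≤ (δ * e ^ r) ^ 2 ^ r → V.valuation (p : K) = 1)
    (W : Set K) (hW : W.Finite) (w : K) (hw : w ∈ W) (hw0 : w ≠ 0)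
    (hwV : ∀ z ∈ W, z / w ∈ V) (hWx : IsDefinedInDegree O k x e W w) :
    ∃ d N₀ : ℕ, 0 < d ∧ ∀ N : ℕ, N₀ ≤ N → d ∣ N →
      ∃ (K' : Type u) (_ : Field K') (_ : Algebra K K') (V' : ValuationSubring K') (ϖ : K'),
        IsLift V π N V' ϖ ∧
        ∃ Y : Set K',
          IsVerticalCentre (ramifiedRing (algebraMap K K') O ϖ) ϖ (algebraMap K K' '' W) Y ∧
          ∀ V₁ : ValuationSubring K', V' ≤ V₁ → V₁.valuation ϖ < 1 →
            IsSemistableAt V₁ (ramifiedRing (algebraMap K K') O ϖ)
              (blowUpCoordinates (algebraMap K K' '' W) Y) := by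
  obtain ⟨htop, htr, C, hC⟩ := hx
  obtain ⟨hWp, hxA⟩ := hWx
  -- the Veronese embedding
  obtain ⟨N', x', hL, htop', hδ', hxA'⟩ :=
    Pool.Agent.N98.SS.exists_ver (E := k) he x htop C hC
  have hfr : ∀ z : K, ∃ a ∈ chart O W w, ∃ b ∈ chart O W w, b ≠ 0 ∧ z = a * b⁻¹ := by
    have hOA : O ≤ chart O W w := fun a ha => Subring.subset_closure (Or.inl ha)
    have hkf : k ≤ fr (chart O W w) := by
      rw [hk, Subfield.closure_le]
      exact fun a ha => le_fr _ (hOA ha)
    intro z
    have hz : z ∈ IntermediateField.adjoin k (Set.range x) := by rw [htop]; trivial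
    refine Pool.Agent.R187.CT.fr_iff.2 ?_
    induction hz using IntermediateField.adjoin_induction with
    | mem z hz =>
      obtain ⟨j, rfl⟩ := hz
      obtain ⟨b, hb, hb0, -, hbz⟩ := hxA j
      exact ⟨b, hb, hb0, by rw [mul_comm]; exact hbz⟩
    | algebraMap c => exact hkf c.2
    | add x y _ _ hx hy => exact add_mem hx hy
    | inv x _ hx => exact inv_mem hx
    | mul x y _ _ hx hy => exact mul_mem hx hy
  obtain ⟨m, L, _, _, VL, ρ, hm, hVL, hρ, hgen, T, n, X, hSt, hmon, hdiv⟩ :=
    Pool.Agent.N98.VG.mainV V O hO π hπ hπ0 hπ1 hπO k hk x' htop' htr C hδ' hp hW hw hw0 hwV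
      (fun z hz => by
        rw [div_eq_mul_inv]
        exact hL _ (Pool.Agent.N98.SS.pprod_mul (hWp z hz)
          (Pool.Agent.N98.SS.pprod_inv (hWp w hw)))) (hxA' _ hxA)
  have hρ0 : ρ ≠ 0 := by
    rintro rfl
    rw [zero_pow hm] at hρ
    exact hπ0 ((_root_.map_eq_zero _).1 hρ.symm)
  have hρ1 : VL.valuation ρ < 1 := by
    by_contra hcon
    push Not at hcon
    have h1 : 1 ≤ VL.valuation ρ ^ m := one_le_pow₀ hcon
    rw [← map_pow, hρ] at h1
    exact absurd ((Pool.Agent.N98.VG.val_lt_one hVL).2 hπ1) (not_lt.2 h1)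
  obtain ⟨hOL, hMod⟩ := Pool.Agent.N98.VG.mod_root hVL hm hρ (hO π hπ) hgen O hO W w hwV hfr
  obtain ⟨d, N₀, hd, -, h3⟩ := Pool.Agent.N98.VG.ss_main_genV Pool.Agent.H176.DT.p_et6
    Pool.Agent.H176.DT.p_tor6 VL (Pool.Agent.H176.DT.Orm O ρ) hOL (hW.image _) ⟨w, hw, rfl⟩
    ((_root_.map_ne_zero _).2 hw0) (by
      rintro _ ⟨z, hz, rfl⟩
      rw [← map_div₀]
      exact (Pool.Agent.N98.VG.val_mem hVL).2 (hwV z hz)) hMod ρ hSt hmon hρ0 hρ1
    (Pool.Agent.N98.VG.cofinal_root hVL hm hρ hgen hπV) hdiv
  refine ⟨m * d, m * (N₀ + 1), Nat.mul_pos (Nat.pos_of_ne_zero hm) hd, ?_⟩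
  rintro N1 hN1 ⟨t, rfl⟩
  have hN2 : N₀ + 1 ≤ d * t := by
    rw [mul_assoc] at hN1
    exact Nat.le_of_mul_le_mul_left hN1 (Nat.pos_of_ne_zero hm)
  obtain ⟨K', _, _, V', ϖ, hV', hϖ, hgen'⟩ :=
    Pool.Agent.H176.DT.exists_root VL ρ (N := d * t) (by omega)
  obtain ⟨Y, d', n', h4, h5, h6, w', h7, h8, h9, P, h10, h11⟩ :=
    h3 (d * t) (by omega) (Dvd.intro t rfl) V' ϖ hV' hϖ hgen'
  letI iK : Algebra K K' := ((algebraMap L K').comp (algebraMap K L)).toAlgebra
  have himg : algebraMap L K' '' (algebraMap K L '' W) = algebraMap K K' '' W := by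
    rw [Set.image_image]
    rfl
  have horm : Pool.Agent.H176.DT.Orm (Pool.Agent.H176.DT.Orm O ρ) ϖ =
      ramifiedRing (algebraMap K K') O ϖ := Pool.Agent.N98.VG.orm_orm O ρ ϖ (d * t) hϖ
  rw [himg, horm] at h5
  rw [himg, horm] at h6
  rw [himg] at h7 h9
  rw [himg, horm] at h10
  have hV2 : V'.comap (algebraMap K K') = V := by
    rw [← hVL, ← hV']
    rfl
  have hOV' : ∀ a : K, a ∈ V → algebraMap K K' a ∈ V' := fun a ha =>
    (Pool.Agent.N98.VG.val_mem hV2).2 ha
  have hϖN : ϖ ^ (m * d * t) = algebraMap K K' π := by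
    rw [mul_assoc, mul_comm m, pow_mul, hϖ, ← map_pow, hρ]
    rfl
  have hϖV : ϖ ∈ V' := by
    rw [← V'.valuation_le_one_iff]
    by_contra hcon
    push Not at hcon
    have h13 : 1 < V'.valuation ϖ ^ (m * d * t) := by
      refine one_lt_pow₀ hcon ?_
      rw [mul_assoc]
      exact Nat.mul_ne_zero hm (by omega)
    rw [← map_pow, hϖN] at h13
    exact absurd ((V'.valuation_le_one_iff _).2 (hOV' π (hO π hπ))) (not_le.2 h13)
  refine ⟨K', inferInstance, iK, V', ϖ, ⟨hV2, hϖN, ?_⟩, Y, ⟨h4, d', n', h5, h6⟩,
    fun V₁ hV₁ hϖ₁ => ⟨w', h7, h8, fun z hz => hV₁ (h9 z hz), ?_⟩⟩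
  · intro z
    have h12 : Subfield.closure (Set.range (algebraMap L K') ∪ {ϖ}) ≤
        Subfield.closure (Set.range (algebraMap K K') ∪ {ϖ}) := by
      rw [Subfield.closure_le]
      rintro y (⟨a, rfl⟩ | hy)
      · have h13 : Subfield.closure (Set.range (algebraMap K L) ∪ {ρ}) ≤
            (Subfield.closure (Set.range (algebraMap K K') ∪ {ϖ})).comap (algebraMap L K') := by
          rw [Subfield.closure_le]
          rintro y (⟨b, rfl⟩ | hy)
          · exact Subfield.subset_closure (Or.inl ⟨b, rfl⟩)
          · rw [Set.mem_singleton_iff.1 hy]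
            have h14 : algebraMap L K' ρ ∈
                Subfield.closure (Set.range (algebraMap K K') ∪ {ϖ}) := by
              have h15 : ϖ ∈ Subfield.closure (Set.range (algebraMap K K') ∪ {ϖ}) :=
                Subfield.subset_closure (Or.inr rfl)
              rw [← hϖ]
              exact pow_mem h15 _
            exact h14
        exact h13 (hgen a)
      · exact Subfield.subset_closure (Or.inr hy)
    exact h12 (hgen' z)
  subst h10
  have hchV : chart (ramifiedRing (algebraMap K K') O ϖ)
      (blowUpCoordinates (algebraMap K K' '' W) Y) w' ≤ V'.toSubring := by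
    unfold chart
    rw [Subring.closure_le]
    rintro z (hz | ⟨y, hy, rfl⟩)
    · refine (?_ : ramifiedRing (algebraMap K K') O ϖ ≤ V'.toSubring) hz
      change Subring.closure ((O.map (algebraMap K K') : Set K') ∪ {ϖ}) ≤ _
      rw [Subring.closure_le]
      rintro z (⟨a, ha, rfl⟩ | hz)
      · exact hOV' a (hO a ha)
      · rw [Set.mem_singleton_iff.1 hz]
        exact hϖV
    · exact h9 y hy
  obtain ⟨hreg, n', y, S, h21, h22, h23, h24⟩ :=
    Pool.Agent.N98.SS.semi_coarse V' V₁ hV₁ _ hchV ϖ hϖ₁ h11
  have hϖ0 : ϖ ≠ 0 := by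
    rintro rfl
    rw [zero_pow (by rw [mul_assoc]; exact Nat.mul_ne_zero hm (by omega))] at hϖN
    exact (_root_.map_ne_zero (algebraMap K K')).2 hπ0 hϖN.symm
  have hON : IsNoetherianRing (O.map (algebraMap K K')) := by
    have h1 : IsNoetherianRing O := inferInstance
    exact isNoetherianRing_of_surjective O _
      ((algebraMap K K').restrict O (O.map _) fun x hx => ⟨x, hx, rfl⟩) (by
          rintro ⟨_, x, hx, rfl⟩
          exact ⟨⟨x, hx⟩, rfl⟩)
  have hlt1 : ∀ z : K', V₁.valuation z < 1 → V'.valuation z < 1 := by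
    intro z hz
    by_contra hcon
    push Not at hcon
    have hz0 : z ≠ 0 := by
      rintro rfl
      rw [map_zero] at hcon
      exact absurd hcon (not_le.2 zero_lt_one)
    have h31 : z⁻¹ ∈ V' := by
      rw [← V'.valuation_le_one_iff, map_inv₀]
      exact (inv_le_one₀ (zero_lt_iff.2 ((_root_.map_ne_zero _).2 hz0))).2 hcon
    have h32 := (V₁.valuation_le_one_iff _).2 (hV₁ h31)
    rw [map_inv₀, inv_le_one₀ (zero_lt_iff.2 ((_root_.map_ne_zero _).2 hz0))] at h32
    exact absurd hz (not_lt.2 h32)
  have h1le : ∀ z : K', V'.valuation z = 1 → V₁.valuation z = 1 := by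
    intro z hz
    refine le_antisymm ((V₁.valuation_le_one_iff _).2
      (hV₁ ((V'.valuation_le_one_iff _).1 hz.le))) ?_
    by_contra hcon
    push Not at hcon
    exact absurd hz (hlt1 z hcon).ne
  obtain ⟨hdvr, hϖQ, hmax⟩ := Pool.Agent.H176.DT.dvr_ram V₁ (O.map (algebraMap K K'))
    (by
      rintro _ ⟨a, ha, rfl⟩
      exact hV₁ (hOV' a (hO a ha))) (algebraMap K K' π) ϖ
    (Nat.pos_of_ne_zero (by rw [mul_assoc]; exact Nat.mul_ne_zero hm (by omega))) hϖN hϖ0 hϖ₁
    (by
      rintro _ ⟨a, ha, rfl⟩ h1
      obtain ⟨b, hb, c, hc, hc1, hcb⟩ :=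
        hπO a ha ((Pool.Agent.N98.VG.val_lt_one hV2).1 (hlt1 _ h1))
      refine ⟨_, ⟨b, hb, rfl⟩, _, ⟨c, hc, rfl⟩, ?_, ?_⟩
      · exact h1le _ ((Pool.Agent.N98.VG.val_eq_one hV2).2 hc1)
      · simp only [← map_mul, hcb])
  have hQP : centreRing V₁ (ramifiedRing (algebraMap K K') O ϖ) ≤
      lo V₁.toSubring (chart (ramifiedRing (algebraMap K K') O ϖ)
        (blowUpCoordinates (algebraMap K K' '' W) Y) w') := by
    refine lo_mono fun z hz => ?_
    exact Subring.subset_closure (Or.inl hz)
  exact ⟨hdvr, hreg, ⟨ϖ, hϖQ⟩, n', y, S, hQP, hmax, h21, h22, h23, h24⟩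

end Pool.Agent.Results.MP_aca629_ag.BoundedDegreeSemistable
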